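import Pool.Agent.W250.RS.Stm2
import Pool.Agent.Helper309.Aff.A1

set_option autoImplicit false

/-! Szemerédi–Trotter for rich lines and arbitrary point sets, by a shear. -/

namespace Pool.Agent.W611.RS2

open Finset

theorem stg : Pool.Agent.W250.RS.S_STG := by
  classical
  intro V Ls j hj hm hr
  set bad : Finset ℝ := ((V ×ˢ V).image (fun pq => (pq.2.1 - pq.1.1) / (pq.1.2 - pq.2.2))) ∪
    Ls.image (fun l => -1 / l.1) with hbad
  obtain ⟨e, he⟩ := Infinite.exists_notMem_finset bad
  have he1 : ∀ p ∈ V, ∀ q ∈ V, e ≠ (q.1 - p.1) / (p.2 - q.2) := by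
    intro p hp q hq h
    apply he
    rw [hbad]
    apply Finset.mem_union_left
    exact Finset.mem_image.2 ⟨(p, q), Finset.mem_product.2 ⟨hp, hq⟩, h.symm⟩
  have he2 : ∀ l ∈ Ls, 1 + l.1 * e ≠ 0 := by
    intro l hl h
    apply he
    rw [hbad]
    apply Finset.mem_union_right
    refine Finset.mem_image.2 ⟨l, hl, ?_⟩
    have h0 := hm l hl
    field_simp
    linarith
  let f : ℝ × ℝ → ℝ × ℝ := fun p => (p.1 + e * p.2, p.2)
  let g : ℝ × ℝ → ℝ × ℝ := fun l => (l.1 / (1 + l.1 * e), l.2 / (1 + l.1 * e))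
  have hf : Function.Injective f := by
    intro p q h
    have h1 : p.1 + e * p.2 = q.1 + e * q.2 := congrArg Prod.fst h
    have h2 : p.2 = q.2 := by
      have h3 : (f p).2 = (f q).2 := congrArg Prod.snd h
      exact h3
    rw [h2] at h1
    exact Prod.ext (by linarith) h2
  have hg : Set.InjOn g (Ls : Set (ℝ × ℝ)) := by
    intro l hl l' hl' h
    have h1 : l.1 / (1 + l.1 * e) = l'.1 / (1 + l'.1 * e) := congrArg Prod.fst h
    have h2 : l.2 / (1 + l.1 * e) = l'.2 / (1 + l'.1 * e) := congrArg Prod.snd h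
    have h3 := he2 l hl
    have h4 := he2 l' hl'
    rw [div_eq_div_iff h3 h4] at h1
    have h5 : l.1 = l'.1 := by linarith
    rw [h5] at h2
    have h6 : l.2 = l'.2 := by
      rw [div_eq_div_iff h4 h4] at h2
      exact mul_right_cancel₀ h4 h2
    exact Prod.ext h5 h6
  have key := Pool.Agent.Helper309.Aff.st_rich (V := V.image f) (Ls := Ls.image g) (j := j)
    (by
      intro p' hp' q' hq' h
      obtain ⟨p, hp, rfl⟩ := Finset.mem_image.1 hp'
      obtain ⟨q, hq, rfl⟩ := Finset.mem_image.1 hq'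
      have h1 : p.1 + e * p.2 = q.1 + e * q.2 := h
      by_cases h2 : p.2 = q.2
      · have h3 : p = q := by
          rw [h2] at h1
          exact Prod.ext (by linarith) h2
        rw [h3]
      · exfalso
        apply he1 p hp q hq
        rw [eq_div_iff (sub_ne_zero.2 h2)]
        linarith)
    hj
    (by
      intro L' hL'
      obtain ⟨l, hl, rfl⟩ := Finset.mem_image.1 hL'
      refine le_trans (hr l hl) ?_
      refine Finset.card_le_card_of_injOn f ?_ hf.injOn
      intro p hp
      have hp' := Finset.mem_filter.1 (Finset.mem_coe.1 hp)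
      rw [Finset.mem_coe, Finset.mem_filter]
      refine ⟨Finset.mem_image_of_mem f hp'.1, ?_⟩
      have h3 := he2 l hl
      have h4 := hp'.2
      show p.2 = l.1 / (1 + l.1 * e) * (p.1 + e * p.2) + l.2 / (1 + l.1 * e)
      field_simp
      linarith)
  rw [Finset.card_image_of_injective _ hf, Finset.card_image_of_injOn hg] at key
  exact key

end Pool.Agent.W611.RS2
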